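import Pool.Agent.L0h74.PW.LawStm

/-!
# Project H1/PW: the laws in residue classes, no condition at two
-/

set_option autoImplicit false
set_option linter.unusedSectionVars false

open scoped Classical

namespace Pool.Agent.L0h74.PW

open Filter
open scoped Topology
open Pool.Agent.L0h1.EV (TT)
open Pool.Agent.Y703.CQ (c2)

/-- squarefree and prime to `7` -/
def Sq7 (D : ℕ) : Prop := Squarefree D ∧ ¬ 7 ∣ D

/-- the class of the residue `r` modulo `q` -/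
def AdmR (q r D : ℕ) : Prop := Sq7 D ∧ D % q = r % q

/-- the good pairs, all `D` -/
def GoodA (M : ℕ) {n : ℕ} (d : Fin n → ℕ) : Prop := ∀ T : Finset (Fin n), ∃ D k : ℕ,
  k ≠ 0 ∧ Sq7 D ∧ TT D ∧ M * ∏ i ∈ T, d i = D * k ^ 2

/-- the proportion of the `D ≤ X` with `P D` among those of the class `C` -/
noncomputable def propR (C : ℕ → Prop) (P : ℕ → Prop) (X : ℕ) : ℝ :=
  (((Finset.Icc 1 X).filter fun D : ℕ => C D ∧ P D).card : ℝ) /
    (((Finset.Icc 1 X).filter fun D : ℕ => C D).card : ℝ)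

/-- JOB LAWR, part 1: the exact proportion of the twists `M D` -/
def S_LAWR : Prop := ∀ (q r : ℕ), 0 < q → (∃ D₀, AdmR q r D₀) →
  ∀ (n M : ℕ) (d : Fin n → ℕ), Sq7 M → (∀ i, Sq7 (d i)) → IndG d →
  Tendsto (propR (AdmR q r) fun D => GoodA (M * D) d) atTop (𝓝 (c2 ^ 2 ^ n / 2))

/-- JOB LAWR, part 2: the exact proportion of the quadratic extensions -/
def S_EXTR : Prop := ∀ (q r : ℕ), 0 < q → (∃ D₀, AdmR q r D₀) →
  ∀ (n M : ℕ) (d : Fin n → ℕ), Sq7 M → (∀ i, Sq7 (d i)) → IndG d → GoodA M d →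
  Tendsto (propR (AdmR q r) fun D => IndG (Fin.snoc d D : Fin (n + 1) → ℕ) ∧
    GoodA M (Fin.snoc d D : Fin (n + 1) → ℕ)) atTop (𝓝 (c2 ^ 2 ^ n / 2))

/-- JOB LAWR, part 3: infinite towers for every good `M`, with all the `D_i` in the class -/
def S_TOWR : Prop := ∀ (q r : ℕ), 0 < q → (∃ D₀, AdmR q r D₀) →
  ∀ M : ℕ, Sq7 M → TT M → ∃ D : ℕ → ℕ, (∀ i, AdmR q r (D i)) ∧
  ∀ n : ℕ, IndG (fun i : Fin n => D i) ∧ GoodA M (fun i : Fin n => D i)

end Pool.Agent.L0h74.PW
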