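import Pool.Agent.R384.X.Mq7

/-!
# Project PW: the Selmer groups of all weights for the twists of `X_0(49)` by all `M = 1 mod 8`

The primes of `ℤ[ω]` (`OO`, `om = ω`, `s7 = √-7 = 2 ω - 1`) are normalised by `= 1` modulo the square of
the strict prime `ϖ` above `2`.
-/

set_option autoImplicit false
set_option linter.unusedSectionVars false

namespace Pool.Agent.L0h74.PW

open Pool.Agent.R384 QuadraticAlgebra

/-- the primes of `ℤ[ω]` prime to `2` and to `√-7` -/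
structure Pq (q : OO) : Prop where
  prime : Prime q
  two : ¬ q ∣ 2
  n7 : ¬ q ∣ s7

/-- the two cases: the strict prime `ϖ`, the other prime `ϖ'` above `2`, the sign `v` and the image `w4`
of `ω` modulo `ϖ ^ 2` -/
def Cs (ϖ ϖ' v : OO) (w4 : ZMod 4) : Prop :=
  (ϖ = om ∧ ϖ' = 1 - om ∧ v = -1 ∧ w4 = 2) ∨ (ϖ = 1 - om ∧ ϖ' = om ∧ v = 1 ∧ w4 = 3)

/-- the facts about the family of the prime divisors -/
structure Fm {w4 : ZMod 4} (hw4 : w4 ^ 2 = w4 - 2) (ϖ' v : OO) {n : ℕ} (q : Fin n → OO) :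
    Prop where
  pr : ∀ i, Pq (q i)
  nd : ∀ i j, i ≠ j → ¬ q i ∣ q j
  four : ∀ i, em hw4 (q i) = 1
  recp : ∀ i j, i ≠ j → qs (q i) (q j) + qs (q j) (q i) = qs (q i) (-1) * qs (q j) (-1)
  sum1 : ∑ i, qs (q i) (-1) = 0
  rec7 : ∀ i, qs s7 (q i) = qs (q i) (-(v * s7))
  sumw : ∑ i, qs (q i) ϖ' = 0
  ker : ∀ S : Finset (Fin n), (∀ i, i ∉ S → ∑ k ∈ S, qs (q i) (q k) = 0) →
    (∀ i, i ∈ S → qs (q i) (v * s7) + ∑ k ∈ Sᶜ, qs (q i) (q k) = 0) → S = ∅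

/-- the families of the prime divisors of `P` in the two cases -/
def Fams (P : OO) : Prop := ∀ (ϖ ϖ' v : OO) (w4 : ZMod 4) (hw4 : w4 ^ 2 = w4 - 2),
  Cs ϖ ϖ' v w4 → ∃ (n : ℕ) (q : Fin n → OO), Fm hw4 ϖ' v q ∧ ∏ i, q i = P

/-- JOB ALGG: the elements which satisfy the local conditions (general form of `R384.X.Alg7.alg7`) -/
def S_ALGG : Prop := ∀ {n : ℕ} {q : Fin n → OO} {ϖ ϖ' v : OO} {w4 : ZMod 4}
  (hw4 : w4 ^ 2 = w4 - 2), Cs ϖ ϖ' v w4 → Fm hw4 ϖ' v q → ∀ {m δ : OO},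
  m = v * (s7 * ∏ i, q i) → em hw4 δ = 1 → Squarefree δ →
  (∀ π, Prime π → π ∣ δ → π ∣ ϖ' ∨ π ∣ s7 ∨ ∃ i, π ∣ q i) →
  (∀ i, (¬ q i ∣ δ ∧ Sqm (q i) δ) ∨
      ∃ δ1 m1, δ = q i * δ1 ∧ m = q i * m1 ∧ Sqm (q i) (δ1 * m1)) →
  ((¬ s7 ∣ δ ∧ Sqm s7 δ) ∨ ∃ δ1 m1, δ = s7 * δ1 ∧ m = s7 * m1 ∧ Sqm s7 (δ1 * m1)) →
  δ = 1 ∨ δ = m

end Pool.Agent.L0h74.PW
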