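import Mathlib
import Pool.Agent.Results.MP_6e2fc3_nt.CMFormsAllWeights
import Pool.Agent.L0h75.H1.Mq
import Pool.Agent.L0h74.PW.LawStm2

/-!
# The parity conjecture at `p = 2` for CM forms of all weights: all twists of `X_0(49)`

Let `E_M` be the quadratic twist by `M` of `X_0(49)`, `ψ_M` its Hecke character over
`K = ℚ(√-7) = ℚ(w)`, `w² = w - 2`. For every odd `k > 0` and every totally real field
`F = ℚ(√d_1, …, √d_n)` the newform of `ψ_M^{2k-1}` has a base change to `F`, a Hilbert modular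
newform `g` of parallel weight `2k`; its Galois representation `V_g` at the prime `2` is the
restriction to `Gal(ℚ̄/F)` of the representation of `Gal(ℚ̄/ℚ)` induced from the character
`κ^k κ'^(1-k)` of `Gal(ℚ̄/K)`.

Here `M`, `d_1, …, d_n` are arbitrary squarefree positive integers prime to `7`; so `F` is an
arbitrary totally real multiquadratic field in which `7` is unramified. The pair of `M` and
`d_1, …, d_n` is good if all the numbers `M ∏_{i ∈ T} d_i` are, up to squares, squarefree numbers `D`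
prime to `7` such that `E_D(ℚ)` is finite and `Ш(E_D/ℚ)` has no element of order two: a condition on
the weight `2` and the field `ℚ` only.

* If the pair is good then `H¹_f(F, V_g) = 0` for the forms `g` of all weights `2k`, `k` odd.
* For all `M` and independent `d_1, …, d_n`, the pair `M D`, `d_1, …, d_n` is good for exactly the
  proportion `c ^ (2 ^ n) / 2` of all squarefree `D` prime to `7`, and of those in every residue
  class `r mod q`; `c = ∏ (1 - 2^{-2i-1}) = 0.419…`.
* If the pair is good, then `d_1, …, d_n, D` are independent and the pair `M`, `d_1, …, d_n, D` is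
  good for exactly the proportion `c ^ (2 ^ n) / 2` of the `D`.
* For **every** squarefree `M` prime to `7` such that `E_M(ℚ)` is finite and `Ш(E_M/ℚ)` has no
  element of order two there is an infinite sequence `D_0, D_1, …` (in every residue class) such that
  for all `n` the field `F_n = ℚ(√D_0, …, √D_{n-1})` has degree `2^n` and `H¹_f(F_n, V_g) = 0` for the
  forms `g` over `F_n` of all the weights `2k`, `k` odd. These `M` are exactly the proportion `c / 2`
  of all squarefree numbers prime to `7`.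
-/

set_option autoImplicit false

namespace Pool.Agent.L0h74.PW.FinH1

open Pool.Agent.Results.MP_787500_nt.AllWeightsMultiquadraticX49 hiding Adm Good InClass prop AtLeast
open Pool.Agent.Results.MP_6e2fc3_nt.CMFormsAllWeights (AllForms zero_of)
open WeierstrassCurve Filter Topology
open scoped Classical

/-- The squarefree numbers `D ≥ 1` prime to `7`. -/
def Sqf (D : ℕ) : Prop := Squarefree D ∧ ¬ 7 ∣ D

/-- Those congruent to `r` modulo `q`. -/
def Class (q r D : ℕ) : Prop := Sqf D ∧ D % q = r % q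

/-- The quadratic twist by `D` of `X_0(49)` over `ℚ`, with integral coefficients: the curve
`y² + x y = x³ - ((3 D + 1) / 4) x² - 2 D² x - D³` for `D ≡ 1 mod 4` and
`y² = x³ - 35 D² x - 98 D³` otherwise. -/
def twist (D : ℕ) : WeierstrassCurve ℚ :=
  if D % 4 = 1 then E D
  else { a₁ := 0, a₂ := 0, a₃ := 0, a₄ := -35 * (D : ℚ) ^ 2, a₆ := -98 * (D : ℚ) ^ 3 }

/-- The group of the rational points of the twist by `D` is finite and its Tate–Shafarevich group
over `ℚ` has no element of order two. -/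
def TrivialTwo (D : ℕ) : Prop :=
  Finite (twist D).toAffine.Point ∧
    ∀ x : Pool.Agent.TH841.NF.D.Sha (twist D), 2 • x = 0 → x = 0

/-- The good pairs: all the numbers `M ∏_{i ∈ T} d_i` are, up to nonzero squares, squarefree numbers
`D` prime to `7` with `TrivialTwo D`. -/
def GoodPair (M : ℕ) {n : ℕ} (d : Fin n → ℕ) : Prop := ∀ T : Finset (Fin n), ∃ D k : ℕ,
  k ≠ 0 ∧ Sqf D ∧ TrivialTwo D ∧ M * ∏ i ∈ T, d i = D * k ^ 2

/-- `M`, `d_1, …, d_n` are squarefree and prime to `7`, and `d_1, …, d_n` are independent modulo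
squares. -/
def In (M : ℕ) {n : ℕ} (d : Fin n → ℕ) : Prop := Sqf M ∧ (∀ i, Sqf (d i)) ∧ Ind d

/-- The proportion of the `D ≤ X` with `P D` among those of the class `C`. -/
noncomputable def proportion (C : ℕ → Prop) (P : ℕ → Prop) (X : ℕ) : ℝ :=
  (((Finset.Icc 1 X).filter fun D : ℕ => C D ∧ P D).card : ℝ) /
    (((Finset.Icc 1 X).filter fun D : ℕ => C D).card : ℝ)

/-- In every nonempty class modulo `q` exactly the proportion `y` of the numbers have the property
`P`. In particular (`q = 1`) this holds for all squarefree numbers prime to `7`. -/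
def Exactly (y : ℝ) (P : ℕ → Prop) : Prop := ∀ q r : ℕ, 0 < q → (∃ D, Class q r D) →
  Tendsto (proportion (Class q r) P) atTop (𝓝 y)

/-- In every nonempty class modulo `q` there is an infinite sequence `D_0, D_1, …` such that for all
`n` the field `F_n = ℚ(√D_0, …, √D_{n-1})` has degree `2 ^ n` (no product of some of the `D_i` is a
square), and `H¹_f(F_n, V) = 0` for the representations `V` of the forms of all weights `2k`, `k`
odd. -/
def InfiniteTower (M : ℕ) : Prop := ∀ q r : ℕ, 0 < q → (∃ D, Class q r D) →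
  ∃ D : ℕ → ℕ, (∀ i, Class q r (D i)) ∧ ∀ n : ℕ, Ind (fun i : Fin n => D i) ∧
    AllForms M (fun i : Fin n => D i)

/-! ### The proof -/

section proof

open Pool.Agent.R384 (WD ca cb em)
open Pool.Agent.L0h75.H1 (Van vanish_mq' K8D)
open Pool.Agent.L0h74.PW (GoodA AdmR Sq7 propR S_LAWR S_EXTR S_TOWR)
open Pool.Agent.L0h1.EV (TT TX)

variable {w : QBar} (hw : w ^ 2 = w - 2)

lemma twist_eq (D : ℕ) : twist D = TX D := by
  unfold twist TX
  split_ifs with h
  · unfold E
    congr 1
    ring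
  · rfl

/-- the curve is isomorphic to the curve `E D` of the earlier results -/
lemma twist_iso (D : ℕ) : Iso (E D) (twist D) := by
  unfold twist
  split_ifs with h
  · exact ⟨1, one_smul _ _⟩
  · refine ⟨⟨Units.mk0 (1 / 2 : ℚ) (by norm_num), (D : ℚ) / 4, -(1 / 2), -(D : ℚ) / 8⟩, ?_⟩
    have hu : (((Units.mk0 (1 / 2 : ℚ) (by norm_num))⁻¹ : ℚˣ) : ℚ) = 2 := by
      simp
    unfold E
    ext
    · simp only [variableChange_a₁, hu]
      norm_num
    · simp only [variableChange_a₂, hu]
      ring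
    · simp only [variableChange_a₃, hu]
      ring
    · simp only [variableChange_a₄, hu]
      ring
    · simp only [variableChange_a₆, hu]
      ring

lemma two_iff (D : ℕ) : TrivialTwo D ↔ TT D := by
  unfold TrivialTwo TT
  rw [twist_eq]
  refine and_congr Iff.rfl (forall_congr' fun x => ?_)
  rw [two_nsmul]

lemma good_iff' {M n : ℕ} {d : Fin n → ℕ} : GoodPair M d ↔ GoodA M d := by
  unfold GoodPair GoodA
  refine forall_congr' fun T => exists_congr fun D => exists_congr fun k =>
    and_congr_right fun _ => ?_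
  rw [two_iff]
  exact Iff.rfl

/-- the vanishing over `K`, all numbers -/
def SV : Prop := ∀ {M : ℕ}, Squarefree M → ¬ 7 ∣ M → TT M →
  Van True (-(Pool.Agent.R384.s7 * (M : Pool.Agent.R384.OO)))

/-- the characters -/
def SK : Prop := ∀ {i₀ : QBar} (hi : i₀ ^ 2 = i₀ - 2) {D : OK}, D ≠ 0 →
  ∀ (h : WD i₀ (em hi D)) {r I : QBar}, r ^ 2 = em hi D → I ^ 2 = -1 →
  ∀ (fx : ∀ σ : Gal i₀, Pool.Agent.R384.Fx i₀ (em hi D) (Pool.Agent.R384.rh σ)),
    ∃ (κ κ' : Chr i₀)
      (x y : ℕ → (Pool.Agent.Y676.IS.Cu (ca i₀ (em hi D)) (cb i₀ (em hi D))).Point),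
      Pool.Agent.R384.KD hi κ κ' D r I ∧ K8D i₀ κ κ' ∧
      Pool.Agent.R384.Tow (Pool.Agent.R384.eF h) (Pool.Agent.R384.tA h) x ∧
      Pool.Agent.R384.Tow (Pool.Agent.R384.eG h) (Pool.Agent.R384.tB h) y ∧
      (∀ σ, Pool.Agent.R384.ActsBy x (Pool.Agent.R384.act h fx σ) (κ' σ)) ∧
      ∀ σ, Pool.Agent.R384.ActsBy y (Pool.Agent.R384.act h fx σ) (κ σ)

/-- the vanishing -/
lemma all_of' (hV : SV) (hK : SK) {M n : ℕ} {d : Fin n → ℕ} (hG : GoodPair M d) :
    AllWeights M d := by
  intro w hw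
  have hM0 : M ≠ 0 := by
    obtain ⟨D, k, hk, hD, -, he⟩ := hG ∅
    rw [Finset.prod_empty, mul_one] at he
    rw [he]
    exact mul_ne_zero hD.1.ne_zero (pow_ne_zero 2 hk)
  have hd0 : ∀ i, d i ≠ 0 := by
    intro i
    obtain ⟨D, k, hk, hD, -, he⟩ := hG {i}
    rw [Finset.prod_singleton] at he
    exact right_ne_zero_of_mul (he ▸ mul_ne_zero hD.1.ne_zero (pow_ne_zero 2 hk))
  have hD := tw_ne hM0
  refine ⟨tw_iso hw M, elliptic hD hw, ?_⟩
  have h : WD w (em hw (tw M)) := ⟨hw, Pool.Agent.R384.em_ne hw hD⟩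
  obtain ⟨r, hr⟩ : ∃ r : QBar, r ^ 2 = em hw (tw M) :=
    IsAlgClosed.exists_pow_nat_eq _ (by norm_num)
  obtain ⟨I, hI⟩ : ∃ I : QBar, I ^ 2 = -1 := IsAlgClosed.exists_pow_nat_eq _ (by norm_num)
  have fx : ∀ σ : Gal w, Pool.Agent.R384.Fx w (em hw (tw M))
      (Pool.Agent.R384.rh σ) := fun σ =>
    ⟨Pool.Agent.Y715.Gi.gk_fix σ, Pool.Agent.R384.gk_em hw σ (tw M)⟩
  obtain ⟨κ, κ', x, y, kd, k8, hx, hy, ax, ay⟩ := hK hw hD h hr hI fx
  have td := Pool.Agent.R384.td h
  set T := tr (curve_eq hw (D := tw M)) with hT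
  have hor : ∀ {p : ℕ} [Fact p.Prime] (ι : QBar →ₐ[ℚ] PadicAlgCl p) (s : QBar) (z : OK),
      s ^ 2 = em hw z → ∀ σ : Gal w, σ s = s ∨ σ s = -s := fun ι s z hs σ =>
    Pool.Agent.R384.rt_or hw hs σ
  have hIr : (I * r) ^ 2 = em hw (-tw M) := by rw [mul_pow, hI, hr, map_neg]; ring
  refine ⟨κ, κ', ⟨⟨fun n => T.symm (y n), fun n => T.symm (x n), ⟨?_, ?_, ?_, ?_⟩,
    ⟨Units.continuous_val.comp kd.cont, fun σ => ?_⟩,
    ⟨Units.continuous_val.comp kd.cont', fun σ => ?_⟩⟩, ?_, ?_⟩, ?_⟩
  · show T.symm (y 0) = 0 ∧ T.symm (x 0) = 0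
    rw [hx.zero, hy.zero, map_zero]
    exact ⟨rfl, rfl⟩
  · intro n
    show T.symm (y (n + 1)) + T.symm (y (n + 1)) = T.symm (y n) ∧
      T.symm (x (n + 1)) + T.symm (x (n + 1)) = T.symm (x n)
    rw [← map_add, ← map_add, hx.dbl, hy.dbl]
    exact ⟨rfl, rfl⟩
  · intro n P hP
    have h1 : (2 ^ n : ℤ) • T P = 0 := by rw [← map_zsmul, hP, map_zero]
    obtain ⟨a, b, hab⟩ := Pool.Agent.R384.Tow.basis td hx hy h1
    refine ⟨b, a, ?_⟩
    apply T.injective
    show T P = T (b • T.symm (y n) + a • T.symm (x n))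
    rw [map_add, map_zsmul, map_zsmul, T.apply_symm_apply, T.apply_symm_apply, hab, add_comm]
  · intro n a b hab
    have h1 : T (a • T.symm (y n) + b • T.symm (x n)) = 0 := by
      show T ((fun n => a • T.symm (y n) + b • T.symm (x n)) n) = 0
      rw [show (fun n => a • T.symm (y n) + b • T.symm (x n)) n = 0 from hab, map_zero]
    rw [map_add, map_zsmul, map_zsmul, T.apply_symm_apply, T.apply_symm_apply, add_comm] at h1
    exact (Pool.Agent.R384.Tow.uniq td hx hy h1).symm
  · intro n k hk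
    show act σ (T.symm (y n)) = k • T.symm (y n)
    apply T.injective
    rw [hT, tr_act hw h fx σ, ← hT, T.apply_symm_apply, map_zsmul, T.apply_symm_apply]
    exact ay σ n k hk
  · intro n k hk
    show act σ (T.symm (x n)) = k • T.symm (x n)
    apply T.injective
    rw [hT, tr_act hw h fx σ, ← hT, T.apply_symm_apply, map_zsmul, T.apply_symm_apply]
    exact ax σ n k hk
  · rintro p _ ι hn σ ⟨τ, hτ, hin⟩
    have h1 := kd.inert p ι τ σ hτ hin hn
    unfold zv
    rcases hor ι _ _ hIr σ with h2 | h2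
    · rw [h1.1 h2, Units.val_one, one_pow]
    · rw [h1.2 h2, Units.val_neg, Units.val_one, neg_one_sq]
  · rintro p _ ι hn σ ⟨τ, hτ, hin⟩
    have h1 := kd.inert' p ι τ σ hτ hin hn
    unfold zv
    rcases hor ι _ _ hr σ with h2 | h2
    · rw [h1.1 h2, Units.val_one, one_pow]
    · rw [h1.2 h2, Units.val_neg, Units.val_one, neg_one_sq]
  · intro s hs k _ hk
    have hom : em hw Pool.Agent.R384.om = w := by
      rw [Pool.Agent.R384.em_apply]
      simp [Pool.Agent.R384.om]
    have hom' : em hw (1 - Pool.Agent.R384.om) = 1 - w := by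
      rw [map_sub, map_one, hom]
    have hk' : Even (1 - k) := by
      rw [Int.even_sub]
      simp [Int.not_even_iff_odd.2 hk]
    have hE : ∀ i, s i ^ 2 = em hw (((d i : ℤ) : Pool.Agent.R384.OO)) := by
      intro i
      rw [hs i, map_intCast]
      push_cast
      rfl
    have hE0 : ∀ i, (((d i : ℤ) : Pool.Agent.R384.OO)) ≠ 0 := by
      intro i h1
      have h2 := congrArg QuadraticAlgebra.re h1
      simp at h2
      exact hd0 i h2
    have hgood : ∀ T : Finset (Fin n), ∃ D' z : Pool.Agent.R384.OO, z ≠ 0 ∧ Van True D' ∧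
        tw M * ∏ i ∈ T, (((d i : ℤ) : Pool.Agent.R384.OO)) = D' * z ^ 2 := by
      intro T
      obtain ⟨D, k, hk0, hA', hR, he⟩ := hG T
      refine ⟨-(Pool.Agent.R384.s7 * ((D : ℕ) : Pool.Agent.R384.OO)),
        ((k : ℤ) : Pool.Agent.R384.OO), ?_, hV hA'.1 hA'.2 ((two_iff D).1 hR), ?_⟩
      · intro h1
        have h2 := congrArg QuadraticAlgebra.re h1
        simp at h2
        exact hk0 h2
      · rw [tw_eq]
        have h1 : ((M : ℤ) : Pool.Agent.R384.OO) * ∏ i ∈ T, (((d i : ℤ) : Pool.Agent.R384.OO)) =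
            ((D : ℤ) : Pool.Agent.R384.OO) * ((k : ℤ) : Pool.Agent.R384.OO) ^ 2 := by
          have h2 : (M : ℤ) * ∏ i ∈ T, (d i : ℤ) = (D : ℤ) * (k : ℤ) ^ 2 := by exact_mod_cast he
          have h3 := congrArg (fun a : ℤ => (a : Pool.Agent.R384.OO)) h2
          simp only [Int.cast_mul, Int.cast_pow, Int.cast_prod] at h3
          exact h3
        have e1 : ((D : ℕ) : Pool.Agent.R384.OO) = ((D : ℤ) : Pool.Agent.R384.OO) := by
          push_cast
          rfl
        rw [e1]
        linear_combination (-Pool.Agent.R384.s7) * h1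
    rw [galL_eq]
    exact ⟨selmer_of hw (vanish_mq' hw hE kd hD hE0 True (fun _ => k8) hgood k
        (Or.inr ⟨hk, rfl, rfl⟩)) hom',
      selmer_of hw (vanish_mq' hw hE kd hD hE0 True (fun _ => k8) hgood (1 - k)
        (Or.inl ⟨hk', rfl, rfl⟩)) hom⟩

/-- from the characters to the representation -/
lemma forms_of {M n : ℕ} {d : Fin n → ℕ} (h : AllWeights M d) : AllForms M d := by
  intro w hw
  obtain ⟨h1, h2, κ, κ', h3, h4⟩ := h w hw
  refine ⟨h1, h2, κ, κ', h3, fun s hs c₀ hc₀ k hk hk' => ?_⟩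
  exact zero_of hw hc₀ hs (h4 s hs k hk hk').1

/-! ### The proportions -/

lemma law_of (hL : S_LAWR) {n M : ℕ} {d : Fin n → ℕ} (h : In M d) :
    Exactly (c ^ 2 ^ n / 2) fun D => GoodPair (M * D) d := by
  intro q r hq hne
  have h1 := hL q r hq hne n M d h.1 h.2.1 h.2.2
  have e : (fun D => GoodPair (M * D) d) = fun D => GoodA (M * D) d :=
    funext fun D => propext good_iff'
  rw [e]
  exact h1

lemma ext_of (hE : S_EXTR) {n M : ℕ} {d : Fin n → ℕ} (h : In M d) (hG : GoodPair M d) :
    Exactly (c ^ 2 ^ n / 2) fun D => Ind (add d D) ∧ GoodPair M (add d D) := by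
  intro q r hq hne
  have h1 := hE q r hq hne n M d h.1 h.2.1 h.2.2 (good_iff'.1 hG)
  have e : (fun D => Ind (add d D) ∧ GoodPair M (add d D)) =
      fun D => Pool.Agent.L0h74.PW.IndG (Fin.snoc d D : Fin (n + 1) → ℕ) ∧
        GoodA M (Fin.snoc d D : Fin (n + 1) → ℕ) :=
    funext fun D => propext (and_congr Iff.rfl good_iff')
  rw [e]
  exact h1

lemma tower_of (hV : SV) (hK : SK) (hT : S_TOWR) {M : ℕ} (hM : Sqf M)
    (hR : TrivialTwo M) : InfiniteTower M := by
  intro q r hq hne
  obtain ⟨D, hD, h⟩ := hT q r hq hne M hM ((two_iff M).1 hR)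
  exact ⟨D, hD, fun n => ⟨(h n).1, forms_of (all_of' hV hK (good_iff'.2 (h n).2))⟩⟩

lemma rank_of (hL : S_LAWR) : Exactly (c / 2) TrivialTwo := by
  have hone : Sqf 1 := ⟨squarefree_one, by norm_num⟩
  have h := law_of hL (n := 0) (M := 1) (d := fun i => i.elim0)
    ⟨hone, fun i => i.elim0, fun T hT => by
      obtain ⟨i, _⟩ := hT
      exact i.elim0⟩
  rw [pow_zero, pow_one] at h
  intro q r hq hne
  refine Tendsto.congr (fun X => ?_) (h q r hq hne)
  unfold proportion
  congr 2
  refine congrArg Finset.card (Finset.filter_congr fun D _ => and_congr_right fun hD => ?_)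
  constructor
  · intro hG
    obtain ⟨D', k, hk, hD', hR, he⟩ := hG ∅
    rw [Finset.prod_empty, mul_one, one_mul] at he
    have h1 : k * k ∣ D := ⟨D', by rw [he]; ring⟩
    have h2 := Nat.isUnit_iff.1 (hD.1.1 k h1)
    rw [h2, one_pow, mul_one] at he
    rwa [he]
  · intro hR T
    refine ⟨D, 1, one_ne_zero, hD.1, hR, ?_⟩
    have : T = ∅ := Finset.eq_empty_of_forall_notMem fun i => i.elim0
    rw [this, Finset.prod_empty]
    ring

end proof

end Pool.Agent.L0h74.PW.FinH1
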