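import Pool.Agent.L0h2.P.FIN

/-!
# Project PW: the statements of the job LAW (proportions and towers)
-/

set_option autoImplicit false
set_option linter.unusedSectionVars false

open scoped Classical

namespace Pool.Agent.L0h74.PW

open Filter
open scoped Topology
open Pool.Agent.L0h1.EV (TT)
open Pool.Agent.Y703.CQ (c2)

/-- the class: `D ≥ 1` is squarefree, `D = 1 mod 8` and prime to `7` -/
def AdmG (D : ℕ) : Prop := Squarefree D ∧ D % 8 = 1 ∧ ¬ 7 ∣ D

/-- no product of some of the `d_i` is a square -/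
def IndG {n : ℕ} (d : Fin n → ℕ) : Prop :=
  ∀ T : Finset (Fin n), T.Nonempty → ¬ IsSquare (∏ i ∈ T, d i)

/-- the good pairs -/
def GoodT (M : ℕ) {n : ℕ} (d : Fin n → ℕ) : Prop := ∀ T : Finset (Fin n), ∃ D k : ℕ,
  k ≠ 0 ∧ AdmG D ∧ TT D ∧ M * ∏ i ∈ T, d i = D * k ^ 2

/-- the proportion of the `D ≤ X` with `P D` among those of the class -/
noncomputable def propG (P : ℕ → Prop) (X : ℕ) : ℝ :=
  (((Finset.Icc 1 X).filter fun D : ℕ => AdmG D ∧ P D).card : ℝ) /
    (((Finset.Icc 1 X).filter fun D : ℕ => AdmG D).card : ℝ)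

/-- JOB LAW, part 1: the exact proportion of the twists `M D` -/
def S_LAW : Prop := ∀ (n M : ℕ) (d : Fin n → ℕ), AdmG M → (∀ i, AdmG (d i)) → IndG d →
  Tendsto (propG fun D => GoodT (M * D) d) atTop (𝓝 (c2 ^ 2 ^ n / 2))

/-- JOB LAW, part 2: the exact proportion of the quadratic extensions -/
def S_EXT : Prop := ∀ (n M : ℕ) (d : Fin n → ℕ), AdmG M → (∀ i, AdmG (d i)) → IndG d →
  GoodT M d → Tendsto (propG fun D => IndG (Fin.snoc d D : Fin (n + 1) → ℕ) ∧
    GoodT M (Fin.snoc d D : Fin (n + 1) → ℕ)) atTop (𝓝 (c2 ^ 2 ^ n / 2))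

/-- JOB LAW, part 3: infinite towers for every good `M` -/
def S_TOW : Prop := ∀ M : ℕ, AdmG M → TT M → ∃ D : ℕ → ℕ, (∀ i, AdmG (D i)) ∧
  ∀ n : ℕ, IndG (fun i : Fin n => D i) ∧ GoodT M (fun i : Fin n => D i)

end Pool.Agent.L0h74.PW
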