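import Pool.Agent.L0h74.PW.Def

/-!
# Project PW: the vanishing of the Selmer groups
-/

set_option autoImplicit false
set_option linter.unusedSectionVars false

namespace Pool.Agent.L0h74.PW

open Pool.Agent.R384
open Pool.Agent.Y715.Red Pool.Agent.Y715.Nr Pool.Agent.W237.RK
open Pool.Agent.Y715.Gi (QB KK GK i₀_mem gk_fix)
open Pool.Agent.Y715.Df (Cmp exists_cmp)
open Pool.Agent.Y715.Lc (norm_two_odd)

open scoped Classical

variable {i₀ : QB} (hi : i₀ ^ 2 = i₀ - 2)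

variable {χ : GK i₀ →* ℤ_[2]ˣ} {m : OO} {r : QB}

lemma Pq.s7_not {q : OO} (h : Pq q) : ¬ s7 ∣ q := by
  intro hd
  exact h.n7 ((prime_s7.dvd_prime_iff_associated h.prime).1 hd).symm.dvd

lemma seven_of' {q : OO} (hq : Pq q) {p : ℕ} [Fact p.Prime] {w : PadicAlgCl p}
    (hw : w ^ 2 = w - 2) (h : ‖em hw q‖ < 1) : p ≠ 7 := by
  rintro rfl
  have e7 : ((7 : ℕ) : OO) = -(s7 * s7) := by
    rw [s7_sq, neg_neg]
    norm_num
  have h1 := (dvd_iff hw hq.prime h ((7 : ℕ) : OO)).2 (p_lt hw)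
  rw [e7, dvd_neg] at h1
  exact hq.n7 ((hq.prime.dvd_or_dvd h1).elim id id)

/-- the local condition at a prime divisor of `m` -/
lemma loc_qg (cd : ChiD hi χ m r) {c : GK i₀ → ℚ_[2]} (hc : Coc χ c) (hc1 : ∀ σ, ‖c σ‖ ≤ 1)
    {q m1 : OO} (hq : Pq q) (hm : m = q * m1) (hq1 : ¬ q ∣ m1)
    {p : ℕ} [Fact p.Prime] {ι : QB →ₐ[ℚ] PadicAlgCl p} (hι : ‖em (iw hi ι) q‖ < 1)
    (hD : CobOn χ (II ι) c) {δ : OO} (hδ : Squarefree δ) {s : QB}
    (hs : s ^ 2 = em hi δ) (hk : ∀ σ : GK i₀, σ s = s ↔ md c σ = 0) :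
    (¬ q ∣ δ ∧ Sqm q δ) ∨ ∃ δ1 m1, δ = q * δ1 ∧ m = q * m1 ∧ Sqm q (δ1 * m1) := by
  have hp2 : p ≠ 2 := fun h => hq.two ((two_of_dvd hq.prime (iw hi ι) hι).1 h)
  have hp7 : p ≠ 7 := seven_of' hq (iw hi ι) hι
  obtain ⟨σ₀, h0, h2⟩ := exists_ram hi cd hq.prime hm hq1 hι
  have hχ : vl χ σ₀ = -1 := by
    obtain ⟨τ, hτ, hin⟩ := h0
    unfold vl
    rw [(cd.inert p ι τ σ₀ hp2 hτ hin).2 h2]
    simp
  have hD' : CobOn χ (DD ι) c := dec_of_inert hc hD h0 hχ fun τ hτ => conj_mem h0 hτ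
  have hsq : (ι s) ^ 2 = em (iw hi ι) δ := by rw [← map_pow, hs, ι_em]
  rcases loc_dich hi cd hc1 hD' (II_sub h0) h2 hs hk with h | h
  · left
    refine ⟨not_dvd_of_fix (iw hi ι) hq.prime hι hδ hsq fun τ _ hτ => fix_D h τ hτ, ?_⟩
    exact resid (iw hi ι) hp2 hp7 hq.prime hι hsq (fix_D h)
  · right
    have hsr : (s * r) ^ 2 = em hi (δ * m) := by rw [mul_pow, hs, cd.hr, map_mul]
    have hdv : q ∣ δ := by
      by_contra hcon
      refine no_simple (iw hi ι) hq.prime hι (t := δ * m1) (s := ι (s * r))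
        (fun h => (hq.prime.dvd_or_dvd h).elim hcon hq1) ?_ fun τ _ hτ => fix_D h τ hτ
      rw [← map_pow, hsr, ι_em, hm]
      congr 1
      ring
    obtain ⟨δ1, hδ1⟩ := hdv
    refine ⟨δ1, m1, hδ1, hm, ?_⟩
    have hq0 : em (iw hi ι) q ≠ 0 := em_ne _ hq.prime.ne_zero
    refine resid (iw hi ι) hp2 hp7 hq.prime hι (y := ι (s * r) / em (iw hi ι) q) ?_ ?_
    · rw [div_pow, ← map_pow, hsr, ι_em, hδ1, hm, div_eq_iff (pow_ne_zero _ hq0), ← map_pow,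
        ← map_mul]
      congr 1
      ring
    · intro τ hτ
      rw [map_div₀, fix_D h τ hτ, em_fix (iw hi ι) hτ]

theorem main7g (hA : S_ALGG) {ϖ ϖ' v : OO} {w4 : ZMod 4} (hw4 : w4 ^ 2 = w4 - 2)
    (hcs : Cs ϖ ϖ' v w4) {n : ℕ} {q : Fin n → OO} (hq : Fm hw4 ϖ' v q)
    (hm : m = v * (s7 * ∏ i, q i)) (cd : ChiD hi χ m r)
    (hm5 : ∀ ι : QB →ₐ[ℚ] PadicAlgCl 2, ‖em (iw hi ι) ϖ‖ < 1 → ‖em (iw hi ι) m - 5‖ ≤ 1 / 8)
    {c : GK i₀ → ℚ_[2]} (hc : Coc χ c)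
    (hodd : ∀ (p : ℕ) [Fact p.Prime] (ι : QB →ₐ[ℚ] PadicAlgCl p), p ≠ 2 → CobOn χ (II ι) c)
    (hstr : ∀ ι : QB →ₐ[ℚ] PadicAlgCl 2, ‖ι (em hi ϖ)‖ < 1 → CobOn χ (DD ι) c) :
    ∃ y : ℚ_[2], ∀ σ, c σ = (vl χ σ - 1) * y := by
  classical
  by_contra hn
  have hϖ : (ϖ = om ∧ ϖ' = 1 - om) ∨ (ϖ = 1 - om ∧ ϖ' = om) := by
    rcases hcs with ⟨h1, h2, -, -⟩ | ⟨h1, h2, -, -⟩
    · exact Or.inl ⟨h1, h2⟩
    · exact Or.inr ⟨h1, h2⟩
  have hv : v = 1 ∨ v = -1 := by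
    rcases hcs with ⟨-, -, h, -⟩ | ⟨-, -, h, -⟩
    · exact Or.inr h
    · exact Or.inl h
  have h4a : (ϖ = om ∧ w4 = 2) ∨ (ϖ = 1 - om ∧ w4 = 3) := by
    rcases hcs with ⟨h1, -, -, h4⟩ | ⟨h1, -, -, h4⟩
    · exact Or.inl ⟨h1, h4⟩
    · exact Or.inr ⟨h1, h4⟩
  have hϖp : Prime ϖ := by
    rcases hϖ with ⟨rfl, -⟩ | ⟨rfl, -⟩
    · exact prime_om
    · exact prime_om'
  have hϖ2 : ϖ * ϖ' = 2 := by
    rcases hϖ with ⟨rfl, rfl⟩ | ⟨rfl, rfl⟩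
    · exact om_mul
    · rw [mul_comm]; exact om_mul
  -- the strict place
  obtain ⟨p, hpf, ι, hι⟩ := exists_emb hi hϖp
  have hp2 : p = 2 := by
    rw [ι_em] at hι
    exact (two_of_dvd hϖp (iw hi ι) hι).2 ⟨_, hϖ2.symm⟩
  subst hp2
  have hι' : ‖em (iw hi ι) ϖ‖ < 1 := by rwa [ι_em] at hι
  have h5 := hm5 ι hι'
  obtain ⟨σ₀, -, hσ₀⟩ := exists_dec5 hi cd ι h5
  -- normalization
  obtain ⟨a, y, ha, hint, hmin⟩ := normalize hc (cd.big hi hσ₀) hn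
  set c' : GK i₀ → ℚ_[2] := fun σ => a * c σ + (vl χ σ - 1) * y with hc'
  have hcc : Coc χ c' := hc.twist cd.cont a y
  have hodd' : ∀ (p : ℕ) [Fact p.Prime] (ι : QB →ₐ[ℚ] PadicAlgCl p), p ≠ 2 →
      CobOn χ (II ι) c' := fun p _ ι hp => (hodd p ι hp).twist a y
  have hstr' : CobOn χ (DD ι) c' := (hstr ι hι).twist a y
  -- Kummer theory
  obtain ⟨δ, hδ, hkum⟩ := kum hi (md c') (md_cont hcc) (md_mul hcc hint)
  obtain ⟨s, hs⟩ : ∃ s : QB, s ^ 2 = em hi δ := IsAlgClosed.exists_pow_nat_eq _ (by norm_num)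
  have hk : ∀ σ : GK i₀, σ s = s ↔ md c' σ = 0 := hkum s hs
  obtain ⟨hst1, hst2⟩ := loc_strict5 hi cd hint hϖp hι' h5 hstr' hδ hs hk
  -- the prime divisors of `δ`
  have hsup : ∀ π, Prime π → π ∣ δ → π ∣ ϖ' ∨ π ∣ s7 ∨ ∃ i, π ∣ q i := by
    intro π hπ hπδ
    by_cases hπ2 : π ∣ 2
    · rw [← hϖ2] at hπ2
      rcases hπ.dvd_or_dvd hπ2 with h | h
      · exfalso
        exact hst1 (((hπ.dvd_prime_iff_associated hϖp).1 h).symm.dvd.trans hπδ)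
      · exact Or.inl h
    · by_cases hπm : π ∣ m
      · right
        have h1 : π ∣ s7 * ∏ i, q i := by
          rcases hv with h | h
          · rwa [hm, h, one_mul] at hπm
          · rwa [hm, h, neg_one_mul, dvd_neg] at hπm
        rcases hπ.dvd_or_dvd h1 with h2 | h2
        · exact Or.inl h2
        · right
          obtain ⟨i, -, h3⟩ := (hπ.dvd_finsetProd_iff _).1 h2
          exact ⟨i, h3⟩
      · exfalso
        obtain ⟨l, hl, κ, hκ⟩ := exists_emb hi hπ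
        rw [ι_em] at hκ
        have hl2 : l ≠ 2 := fun h => hπ2 ((two_of_dvd hπ (iw hi κ) hκ).1 h)
        have h1 := unram hi cd hl2 (hodd' l κ hl2) ((dvd_iff (iw hi κ) hπ hκ m).not.1 hπm)
        refine not_dvd_of_fix (iw hi κ) hπ hκ hδ (s := κ s) ?_ ?_ hπδ
        · rw [← map_pow, hs, ι_em]
        · intro τ hin hτ
          exact fix_I (fun σ hσ => (hk σ).2 (h1 σ hσ)) τ hin hτ
  have hv' : ∀ {π : OO}, Prime π → ¬ π ∣ v := by
    intro π hπ h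
    rcases hv with h1 | h1
    · rw [h1] at h
      exact hπ.not_isUnit (isUnit_of_dvd_one h)
    · rw [h1, dvd_neg] at h
      exact hπ.not_isUnit (isUnit_of_dvd_one h)
  -- the prime divisors of `m`
  have hloc : ∀ i, (¬ q i ∣ δ ∧ Sqm (q i) δ) ∨
      ∃ δ1 m1, δ = q i * δ1 ∧ m = q i * m1 ∧ Sqm (q i) (δ1 * m1) := by
    intro i
    obtain ⟨m1, hm1, hm1'⟩ : ∃ m1, m = q i * m1 ∧ ¬ q i ∣ m1 := by
      have h1 := Finset.mul_prod_erase Finset.univ q (Finset.mem_univ i)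
      have h2 : ¬ q i ∣ ∏ k ∈ Finset.univ.erase i, q k := by
        intro h1
        obtain ⟨j, hj, h2⟩ := ((hq.pr i).prime.dvd_finsetProd_iff _).1 h1
        exact hq.nd i j (Finset.ne_of_mem_erase hj).symm h2
      refine ⟨v * (s7 * ∏ k ∈ Finset.univ.erase i, q k), by rw [hm, ← h1]; ring, fun h => ?_⟩
      rcases (hq.pr i).prime.dvd_or_dvd h with h3 | h3
      · exact hv' (hq.pr i).prime h3
      · rcases (hq.pr i).prime.dvd_or_dvd h3 with h4 | h4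
        · exact (hq.pr i).n7 h4
        · exact h2 h4
    obtain ⟨l, hl, κ, hκ⟩ := exists_emb hi (hq.pr i).prime
    rw [ι_em] at hκ
    have hl2 : l ≠ 2 := fun h =>
      (hq.pr i).two ((two_of_dvd (hq.pr i).prime (iw hi κ) hκ).1 h)
    exact loc_qg hi cd hcc hint (hq.pr i) hm1 hm1' hκ (hodd' l κ hl2) hδ hs hk
  have hloc7 : (¬ s7 ∣ δ ∧ Sqm s7 δ) ∨
      ∃ δ1 m1, δ = s7 * δ1 ∧ m = s7 * m1 ∧ Sqm s7 (δ1 * m1) := by
    obtain ⟨l, hl, κ, hκ⟩ := exists_emb hi prime_s7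
    rw [ι_em] at hκ
    have hl7 := p_seven (iw hi κ) hκ
    have hl2 : l ≠ 2 := by rw [hl7]; norm_num
    refine loc_7 hi cd hcc hint (m1 := v * ∏ i, q i) (by rw [hm]; ring) (fun h => ?_) hκ
      (hodd' l κ hl2) hδ hs hk
    rcases prime_s7.dvd_or_dvd h with h1 | h1
    · exact hv' prime_s7 h1
    · obtain ⟨j, -, h2⟩ := (prime_s7.dvd_finsetProd_iff _).1 h1
      exact (hq.pr j).s7_not h2
  -- modulo four
  have hm4 : em hw4 m = 1 := by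
    apply em_four_one (iw hi ι) hw4 h4a hι'
    have e : em (iw hi ι) m - 1 = (em (iw hi ι) m - 5) + 4 := by ring
    rw [e]
    exact add_le (h5.trans (by norm_num)) norm_four'.le
  have hδ4 : em hw4 δ = 1 := by
    rcases hst2 with h | h
    · exact em_four_one (iw hi ι) hw4 h4a hι' (h.trans (by norm_num))
    · have h1 := em_four_one (iw hi ι) hw4 h4a hι' (h.trans (by norm_num))
      rwa [map_mul, hm4, mul_one] at h1
  have hδ2 := hA hw4 hcs hq hm hδ4 hδ hsup hloc hloc7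
  rcases hδ2 with h | h
  · -- `δ = 1`
    rw [h, map_one] at hs
    obtain ⟨σ, hσ⟩ := hmin 0
    rw [mul_zero, sub_zero] at hσ
    apply hσ
    have h1 : σ s = s := by
      rcases sq_eq_one_iff.1 hs with h2 | h2
      · rw [h2, map_one]
      · rw [h2, map_neg, map_one]
    have h5 : ‖c' σ‖ < 1 := md_zero.1 ((hk σ).1 h1)
    exact h5
  · -- `δ = m`
    rw [h] at hs
    have hsr : ∀ σ : GK i₀, σ s = s ↔ σ r = r := by
      intro σ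
      have h1 : s ^ 2 = r ^ 2 := by rw [hs, cd.hr]
      rcases sq_eq_sq_iff_eq_or_eq_neg.1 h1 with h2 | h2
      · rw [h2]
      · rw [h2, map_neg, neg_inj]
    obtain ⟨σ, hσ⟩ := hmin (1 / 2)
    apply hσ
    have h2n : ‖(2 : ℚ_[2])‖ = 1 / 2 := norm_two'
    have h3 : ‖(vl χ σ - 1) * (1 / 2)‖ = 2 * ‖vl χ σ - 1‖ := by
      rw [norm_mul, norm_div, norm_one, h2n]
      ring
    by_cases h4 : md c' σ = 0
    · have h5 : ‖c' σ‖ < 1 := md_zero.1 h4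
      have h6 := (cd.iff hi σ).2 ((hsr σ).1 ((hk σ).2 h4))
      have e : c' σ - (vl χ σ - 1) * (1 / 2) = c' σ + -((vl χ σ - 1) * (1 / 2)) := by ring
      have h7 : ‖c' σ - (vl χ σ - 1) * (1 / 2)‖ < 1 := by
        rw [e]
        refine add_lt' h5 ?_
        rw [norm_neg, h3]
        linarith
      exact h7
    · have h5 : ¬ ‖c' σ‖ < 1 := fun h => h4 (md_zero.2 h)
      have h6 := (md_eq (hint σ)).1 h5
      have h7 : σ r = -r := by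
        rcases rt_or hi cd.hr σ with h7 | h7
        · exact absurd ((hk σ).1 ((hsr σ).2 h7)) h4
        · exact h7
      have h8 := cd.big hi h7
      have h9 : ¬ ‖(vl χ σ - 1) * (1 / 2)‖ < 1 := by
        rw [h3, h8]
        norm_num
      have h10 := (md_eq (by rw [h3, h8]; norm_num)).1 h9
      have e : c' σ - (vl χ σ - 1) * (1 / 2) = (c' σ - 1) + -((vl χ σ - 1) * (1 / 2) - 1) := by ring
      rw [e]
      exact add_lt' h6 (by rwa [norm_neg])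

section

variable {κ κ' : GK i₀ →* ℤ_[2]ˣ} {D : OO} {I : QB}

/-- **The vanishing theorem** for the curve `E_D`, `D = -√-7 P`. -/
theorem vanish7g (hA : S_ALGG) {P : OO} (hP : Fams P) (h8 : (8 : OO) ∣ P - 1)
    (hD : D = -(s7 * P)) (kd : KD hi κ κ' D r I) (j : ℤ) {ϖ ϖ' : OO}
    (hϖ : (Even j ∧ ϖ = om ∧ ϖ' = 1 - om) ∨ (Odd j ∧ ϖ = 1 - om ∧ ϖ' = om))
    {c : GK i₀ → ℚ_[2]} (hc : Coc (κ ^ j * κ' ^ (1 - j)) c)
    (hodd : ∀ (p : ℕ) [Fact p.Prime] (ι : QB →ₐ[ℚ] PadicAlgCl p), p ≠ 2 →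
      CobOn (κ ^ j * κ' ^ (1 - j)) (II ι) c)
    (hstr : ∀ ι : QB →ₐ[ℚ] PadicAlgCl 2, ‖ι (em hi ϖ)‖ < 1 →
      CobOn (κ ^ j * κ' ^ (1 - j)) (DD ι) c) :
    ∃ y : ℚ_[2], ∀ σ, c σ = (vl (κ ^ j * κ' ^ (1 - j)) σ - 1) * y := by
  obtain ⟨m, s, hm, cd⟩ := chiD7 hi kd j
  have hw2 : (2 : ZMod 4) ^ 2 = 2 - 2 := by decide
  have hw3 : (3 : ZMod 4) ^ 2 = 3 - 2 := by decide
  rcases hϖ with ⟨hj, h1, h2⟩ | ⟨hj, h1, h2⟩
  · have hm' : m = D := by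
      rcases hm with ⟨-, h⟩ | ⟨h, -⟩
      · exact h
      · exact absurd hj (Int.not_even_iff_odd.2 h)
    have hcs : Cs ϖ ϖ' (-1) (2 : ZMod 4) := Or.inl ⟨h1, h2, rfl, rfl⟩
    obtain ⟨n, q, hq, hprod⟩ := hP ϖ ϖ' (-1) 2 hw2 hcs
    refine main7g hi hA hw2 hcs hq (by rw [hm', hD, hprod]; ring) cd
      (fun ι hι => ?_) hc hodd hstr
    rw [h1] at hι
    rw [hm', hD]
    exact (s7_five hi h8).1 hι
  · have hm' : m = -D := by
      rcases hm with ⟨h, -⟩ | ⟨-, h⟩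
      · exact absurd h (Int.not_even_iff_odd.2 hj)
      · exact h
    have hcs : Cs ϖ ϖ' 1 (3 : ZMod 4) := Or.inr ⟨h1, h2, rfl, rfl⟩
    obtain ⟨n, q, hq, hprod⟩ := hP ϖ ϖ' 1 3 hw3 hcs
    refine main7g hi hA hw3 hcs hq (by rw [hm', hD, hprod]; ring) cd
      (fun ι hι => ?_) hc hodd hstr
    rw [h1] at hι
    rw [hm', hD, neg_neg]
    exact (s7_five hi h8).2 hι

end

section mq

variable {n : ℕ} {s : Fin n → QB} {κ κ' : GK i₀ →* ℤ_[2]ˣ} {D : OO} {I : QB}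

/-- **The vanishing theorem over multiquadratic fields.** -/
theorem vanish_mqg (hA : S_ALGG) {E : Fin n → OO} (hE : ∀ i, s i ^ 2 = em hi (E i))
    (kd : KD hi κ κ' D r I) (hD : D ≠ 0) (hE0 : ∀ i, E i ≠ 0)
    (hgood : ∀ T : Finset (Fin n), ∃ P z : OO, Fams P ∧ (8 : OO) ∣ P - 1 ∧ z ≠ 0 ∧
      D * ∏ i ∈ T, E i = -(s7 * P) * z ^ 2) (j : ℤ) {ϖ ϖ' : OO}
    (hϖ : (Even j ∧ ϖ = om ∧ ϖ' = 1 - om) ∨ (Odd j ∧ ϖ = 1 - om ∧ ϖ' = om)) :
    VanOn hi ϖ (κ ^ j * κ' ^ (1 - j)) (fixs s Finset.univ) := by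
  classical
  have hs0 : ∀ i, s i ≠ 0 := by
    intro i h
    have h1 := hE i
    rw [h, zero_pow two_ne_zero] at h1
    exact hE0 i (em_inj hi h1.symm)
  have hs : ∀ (i) (σ : GK i₀), σ (s i) = s i ∨ σ (s i) = -s i := fun i σ => rt_or hi (hE i) σ
  refine van_all hi hs0 hs ϖ Finset.univ _ fun T _ => ?_
  obtain ⟨P, z, hP, h8, hz, hprod⟩ := hgood T
  have kd1 := KD.twists hi hs0 hs hE kd hD hE0 T
  have hz0 : em hi z ≠ 0 := em_ne hi hz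
  have kd2 := KD.resc hi kd1 (D' := -(s7 * P)) (u := (em hi z)⁻¹) (inv_ne_zero hz0)
    (fun σ => by rw [map_inv₀, gk_em]) (by
      rw [mul_pow, kd1.hr, hprod, map_mul, map_pow]
      field_simp)
  set S := ∏ i ∈ T, sgc (es (hs0 i) (hs i)) with hS
  have e : κ ^ j * κ' ^ (1 - j) * S = (κ * S) ^ j * (κ' * S) ^ (1 - j) := by
    refine MonoidHom.ext fun σ => ?_
    have key : ∀ a b c : ℤ_[2]ˣ, a ^ j * b ^ (1 - j) * c = (a * c) ^ j * (b * c) ^ (1 - j) :=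
      fun a b c => by
        rw [mul_zpow, mul_zpow, mul_mul_mul_comm, ← zpow_add, add_sub_cancel, zpow_one]
    exact key _ _ _
  intro c hc hodd hstr
  rw [e] at hc hodd hstr ⊢
  obtain ⟨y, hy⟩ := vanish7g hi hA hP h8 rfl kd2 j hϖ
    (c := c) ⟨by
      have := hc.cont
      rwa [Subgroup.coe_top, continuousOn_univ] at this, fun σ τ => hc.mul σ trivial τ trivial⟩
    (fun p _ ι hp => by
      obtain ⟨y, hy⟩ := hodd p ι hp
      exact ⟨y, fun σ hσ => hy σ hσ trivial⟩)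
    (fun ι hι => by
      obtain ⟨y, hy⟩ := hstr ι hι
      exact ⟨y, fun σ hσ => hy σ hσ trivial⟩)
  exact ⟨y, fun σ _ => hy σ⟩

end mq

end Pool.Agent.L0h74.PW
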