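import Pool.Agent.L0h74.PW.Def
import Pool.Agent.L0h4.TD.Datx

/-!
# Project PW: the statements of the jobs on the families of the primes
-/

set_option autoImplicit false
set_option linter.unusedSectionVars false

namespace Pool.Agent.L0h74.PW

open Pool.Agent.Y698 (RR aR)
open Pool.Agent.Y698.SG (lg sy ix)
open Pool.Agent.L0h4.TW (Dt NonSing pfx)

/-- JOB TR: the two models of the ring `ℤ[ω]` and their residue symbols -/
def S_TR : Prop := ∃ φ : Pool.Agent.R384.OO ≃+* RR, φ Pool.Agent.R384.om = aR ∧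
  ∀ π x : Pool.Agent.R384.OO, ¬ π ∣ x → Pool.Agent.R384.qs π x = lg (sy (φ π) (φ x))

/-- JOB SW: the sum of the symbols of the other prime above two -/
def S_SW : Prop := ∀ (Q P : Finset ℕ) (ϖ : ℕ → RR), Dt Q P ϖ → (∏ q ∈ Q ∪ P, q) % 8 = 1 →
  ∑ i ∈ ix Q P, lg (sy (pfx Q ϖ i) (1 - aR)) = 0

/-- JOB FACT: the families -/
def S_FACT : Prop := ∀ (Q P : Finset ℕ) (ϖ : ℕ → RR), Dt Q P ϖ → NonSing Q P ϖ →
  (∏ q ∈ Q ∪ P, q) % 8 = 1 → Fams (((∏ q ∈ Q ∪ P, q : ℕ) : ℤ) : Pool.Agent.R384.OO)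

end Pool.Agent.L0h74.PW
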